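import Pool.Agent.helper4.T7.SpecR
import Pool.Agent.helper82.T6.SpecL
import Pool.Agent.helper22.T6.WNR

/-!
# T7, row RNP: near points for the modulus `n³ k p` (copy of END, `Pool/Agent/helper41/T6/END.lean`)
-/

set_option autoImplicit false

namespace Pool.Agent.T7

open Finset Pool.Agent.helper3.FT Pool.Agent.T5 Pool.Agent.T6

/-- the data of one near point -/
structure RNP_P (n k M G h δ r p : ℕ) (a : ℤ × ℤ × ℤ) (w : ℤ × ℤ) (x y : Fin 4 → ℤ) : Prop where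
  x0 : x 0 = w.1
  x1 : x 1 = w.2
  d2 : (n : ℤ) ^ 3 * k * p ∣ x 2 - h * (2 * a.1 * x 0 + a.2.1 * x 1)
  d3 : (n : ℤ) ^ 3 * k * p ∣ x 3 - h * (a.2.1 * x 0 + 2 * a.2.2 * x 1)
  b0 : |(x 0 : ℝ)| ≤ 4 * M
  b1 : |(x 1 : ℝ)| ≤ 4 * G
  b2 : |(x 2 : ℝ)| ≤ (n : ℝ) ^ 3 * k * p / M
  b3 : |(x 3 : ℝ)| ≤ (n : ℝ) ^ 3 * k * p / G
  y0 : (n : ℤ) ^ 3 * y 0 = h * x 1 + k ^ 2 * x 2
  y1 : (n : ℤ) ^ 3 * y 1 = h * x 0 + 2 * n ^ 2 * x 2 + k ^ 2 * x 3
  y2 : (k : ℤ) * y 2 = 2 * n * y 1 - 5 * x 2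
  y3 : (k : ℤ) * y 3 = x 3
  inG : InG δ r (y 0, y 1, y 2, y 3)

theorem RNP_res {n k p α β γ : ℤ} (h : ResG n k 1 1 1 p α β γ) : ResG n k 1 1 1 1 α β γ where
  hα := h.hα
  hβ := h.hβ
  hγ := h.hγ
  kα := by rw [mul_one]; exact (Dvd.intro p rfl).trans h.kα
  kβ := by rw [mul_one]; exact (Dvd.intro p rfl).trans h.kβ
  kγ := by rw [mul_one]; exact (Dvd.intro p rfl).trans h.kγ

theorem RNP_ex (hWDM : WDM_stmt) (n k M G h δ r p : ℕ) (a : ℤ × ℤ × ℤ) (hn : 1 ≤ n) (hk : 1 ≤ k) (hp1 : 1 ≤ p)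
    (hc : Nat.Coprime n k) (hR : ResG n k 1 1 1 p a.1 a.2.1 a.2.2)
    (hδh : δ ∣ h) (hcδ : Nat.Coprime δ (5 * (n * k))) (hr : (δ : ℤ) ∣ (r : ℤ) * k - n) (w : ℤ × ℤ)
    (hw : w ∈ nearPts M G (h * a.1 / ((n : ℝ) ^ 3 * k * p)) (h * a.2.1 / ((n : ℝ) ^ 3 * k * p)) (h * a.2.2 / ((n : ℝ) ^ 3 * k * p))) :
    ∃ x y : Fin 4 → ℤ, RNP_P n k M G h δ r p a w x y := by
  rw [nearPts, mem_filter, mem_product, mem_Icc, mem_Icc] at hw
  obtain ⟨⟨⟨ha, hb⟩, hc', hd⟩, h1, h2⟩ := hw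
  have hq : 1 ≤ n ^ 3 * k * p := Nat.one_le_iff_ne_zero.2 (by positivity)
  have e1 : 2 * (h * a.1 / ((n : ℝ) ^ 3 * k * p)) * w.1 + h * a.2.1 / ((n : ℝ) ^ 3 * k * p) * w.2 =
      ((h * (2 * a.1 * w.1 + a.2.1 * w.2) : ℤ) : ℝ) / ((n ^ 3 * k * p : ℕ) : ℝ) := by
    push_cast
    ring
  have e2 : h * a.2.1 / ((n : ℝ) ^ 3 * k * p) * w.1 + 2 * (h * a.2.2 / ((n : ℝ) ^ 3 * k * p)) * w.2 =
      ((h * (a.2.1 * w.1 + 2 * a.2.2 * w.2) : ℤ) : ℝ) / ((n ^ 3 * k * p : ℕ) : ℝ) := by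
    push_cast
    ring
  rw [e1] at h1
  rw [e2] at h2
  obtain ⟨ξ, hξ1, hξ2⟩ := WNR_round _ _ _ hq h1
  obtain ⟨Ξ, hΞ1, hΞ2⟩ := WNR_round _ _ _ hq h2
  push_cast at hξ1 hξ2 hΞ1 hΞ2
  have hξ3 : (n : ℤ) ^ 3 * k ∣ ξ - h * (2 * a.1 * w.1 + a.2.1 * w.2) := (Dvd.intro (p : ℤ) rfl).trans hξ1
  have hΞ3 : (n : ℤ) ^ 3 * k ∣ Ξ - h * (a.2.1 * w.1 + 2 * a.2.2 * w.2) := (Dvd.intro (p : ℤ) rfl).trans hΞ1
  obtain ⟨A, A', B, X, r1, r2, r3, r4, r5, r6⟩ := hWDM n k h w.1 w.2 ξ Ξ a.1 a.2.1 a.2.2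
    (by exact_mod_cast (by omega : n ≠ 0))
    (by exact_mod_cast (by omega : k ≠ 0)) (Nat.isCoprime_iff_coprime.2 hc) (RNP_res hR) hξ3 hΞ3
  have hInG := WNR_InG hδh hcδ hr r5 r6
  refine ⟨![w.1, w.2, ξ, Ξ], ![A, A', B, X], ⟨rfl, rfl, hξ1, hΞ1, ?_, ?_, hξ2, hΞ2, r1, r2, r3, r4, hInG⟩⟩
  · show |(w.1 : ℝ)| ≤ 4 * M
    rw [abs_le]
    constructor
    · exact_mod_cast ha
    · exact_mod_cast hb
  · show |(w.2 : ℝ)| ≤ 4 * G
    rw [abs_le]
    constructor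
    · exact_mod_cast hc'
    · exact_mod_cast hd

theorem RNP_li {n k M G h δ r p : ℕ} {a : ℤ × ℤ × ℤ} (hn : 1 ≤ n) (hk : 1 ≤ k) (w : Fin 4 → ℤ × ℤ) (x y : Fin 4 → Fin 4 → ℤ)
    (hP : ∀ i, RNP_P n k M G h δ r p a (w i) (x i) (y i)) (hy : LinearIndependent ℤ y) :
    LinearIndependent ℤ x := by
  rw [Fintype.linearIndependent_iff] at hy ⊢
  intro g hg
  apply hy g
  have hX : ∀ j, ∑ i, g i * x i j = 0 := by
    intro j
    have := congrFun hg j
    simpa using this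
  have hn0 : (n : ℤ) ^ 3 ≠ 0 := pow_ne_zero _ (by exact_mod_cast (by omega : n ≠ 0))
  have hk0 : (k : ℤ) ≠ 0 := by exact_mod_cast (by omega : k ≠ 0)
  have e0 : (n : ℤ) ^ 3 * ∑ i, g i * y i 0 = h * ∑ i, g i * x i 1 + k ^ 2 * ∑ i, g i * x i 2 := by
    rw [mul_sum, mul_sum, mul_sum, ← sum_add_distrib]
    exact sum_congr rfl fun i _ => by linear_combination g i * (hP i).y0
  have e1 : (n : ℤ) ^ 3 * ∑ i, g i * y i 1 = h * ∑ i, g i * x i 0 + 2 * n ^ 2 * ∑ i, g i * x i 2 +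
      k ^ 2 * ∑ i, g i * x i 3 := by
    rw [mul_sum, mul_sum, mul_sum, mul_sum, ← sum_add_distrib, ← sum_add_distrib]
    exact sum_congr rfl fun i _ => by linear_combination g i * (hP i).y1
  have e2 : (k : ℤ) * ∑ i, g i * y i 2 = 2 * n * ∑ i, g i * y i 1 - 5 * ∑ i, g i * x i 2 := by
    rw [mul_sum, mul_sum, mul_sum, ← sum_sub_distrib]
    exact sum_congr rfl fun i _ => by linear_combination g i * (hP i).y2
  have e3 : (k : ℤ) * ∑ i, g i * y i 3 = ∑ i, g i * x i 3 := by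
    rw [mul_sum]
    exact sum_congr rfl fun i _ => by linear_combination g i * (hP i).y3
  rw [hX 1, hX 2] at e0
  rw [hX 0, hX 2, hX 3] at e1
  have z0 : ∑ i, g i * y i 0 = 0 := by
    have : (n : ℤ) ^ 3 * ∑ i, g i * y i 0 = 0 := by rw [e0]; ring
    exact (mul_eq_zero.1 this).resolve_left hn0
  have z1 : ∑ i, g i * y i 1 = 0 := by
    have : (n : ℤ) ^ 3 * ∑ i, g i * y i 1 = 0 := by rw [e1]; ring
    exact (mul_eq_zero.1 this).resolve_left hn0
  have z2 : ∑ i, g i * y i 2 = 0 := by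
    have : (k : ℤ) * ∑ i, g i * y i 2 = 0 := by rw [e2, z1, hX 2]; ring
    exact (mul_eq_zero.1 this).resolve_left hk0
  have z3 : ∑ i, g i * y i 3 = 0 := by
    have : (k : ℤ) * ∑ i, g i * y i 3 = 0 := by rw [e3, hX 3]
    exact (mul_eq_zero.1 this).resolve_left hk0
  funext j
  rw [Finset.sum_apply]
  simp only [Pi.smul_apply, smul_eq_mul, Pi.zero_apply]
  fin_cases j
  · exact z0
  · exact z1
  · exact z2
  · exact z3

theorem RNP (hWDM : WDM_stmt) (hGP : GP_stmt) (hGR : GR_stmt) (hN1 : N1_stmt) (hN2 : N2_stmt) (hN4 : N4_stmt) : RNP_stmt := by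
  classical
  intro n k M G h δ r p a b ρ hn hk hM hG hh hp1 hc hR hb hρ hδ hδh hcδ hr s1 s2 s3 s4
  have hex := RNP_ex hWDM n k M G h δ r p a hn hk hp1 hc hR hδh hcδ hr
  obtain ⟨N, hN⟩ : ∃ N : Finset (ℤ × ℤ), N = nearPts M G (h * a.1 / ((n : ℝ) ^ 3 * k * p)) (h * a.2.1 / ((n : ℝ) ^ 3 * k * p))
    (h * a.2.2 / ((n : ℝ) ^ 3 * k * p)) := ⟨_, rfl⟩
  rw [← hN] at hex ⊢
  choose! fx fy hP using hex
  have hn0 : (n : ℤ) ≠ 0 := by exact_mod_cast (by omega : n ≠ 0)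
  have hk0 : (k : ℤ) ≠ 0 := by exact_mod_cast (by omega : k ≠ 0)
  have hh0 : (h : ℤ) ≠ 0 := by exact_mod_cast (by omega : h ≠ 0)
  have hpr : (0 : ℝ) < p := by exact_mod_cast hp1
  have hnr : (0 : ℝ) < n := by exact_mod_cast hn
  have hkr : (0 : ℝ) < k := by exact_mod_cast hk
  have hMr : (0 : ℝ) < M := by exact_mod_cast hM
  have hGr : (0 : ℝ) < G := by exact_mod_cast hG
  have hb0 : 0 < b := by linarith
  have hfx : Set.InjOn fx (N : Set (ℤ × ℤ)) := by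
    intro w hw w' hw' he
    have h1 := hP w hw
    have h2 := hP w' hw'
    rw [← he] at h2
    exact Prod.ext (h1.x0.symm.trans h2.x0) (h1.x1.symm.trans h2.x1)
  have hfy : Set.InjOn fy (N : Set (ℤ × ℤ)) := by
    intro w hw w' hw' he
    have h1 := hP w hw
    have h2 := hP w' hw'
    have e0 : fy w 0 = fy w' 0 := by rw [he]
    have e1 : fy w 1 = fy w' 1 := by rw [he]
    have e2 : fy w 2 = fy w' 2 := by rw [he]
    have e3 : fy w 3 = fy w' 3 := by rw [he]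
    have x3 : fx w 3 = fx w' 3 := by rw [← h1.y3, ← h2.y3, e3]
    have x2 : fx w 2 = fx w' 2 := by
      have a1 := h1.y2
      have a2 := h2.y2
      rw [e1, e2] at a1
      linarith
    have x1 : fx w 1 = fx w' 1 := by
      have a1 := h1.y0
      have a2 := h2.y0
      rw [e0, x2] at a1
      have a3 : (h : ℤ) * fx w 1 = h * fx w' 1 := by linarith
      exact mul_left_cancel₀ hh0 a3
    have x0 : fx w 0 = fx w' 0 := by
      have a1 := h1.y1
      have a2 := h2.y1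
      rw [e1, x2, x3] at a1
      have a3 : (h : ℤ) * fx w 0 = h * fx w' 0 := by linarith
      exact mul_left_cancel₀ hh0 a3
    exact Prod.ext (by rw [← h1.x0, ← h2.x0, x0]) (by rw [← h1.x1, ← h2.x1, x1])
  by_cases hLI : ∃ w : Fin 4 → Fin 4 → ℤ, (∀ i, w i ∈ N.image fx) ∧ LinearIndependent ℤ w
  · left
    obtain ⟨w, hw, hwl⟩ := hLI
    obtain ⟨q, hqdef⟩ : ∃ q : ℕ, q = n ^ 3 * k * p := ⟨_, rfl⟩
    have hq1 : 1 ≤ q := by rw [hqdef]; exact Nat.one_le_iff_ne_zero.2 (by positivity)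
    have : NeZero q := ⟨by omega⟩
    have hqz : (n : ℤ) ^ 3 * k * p = (q : ℤ) := by rw [hqdef]; push_cast; ring
    have hqr : (n : ℝ) ^ 3 * k * p = (q : ℝ) := by rw [hqdef]; push_cast; ring
    have hqr0 : (0 : ℝ) < q := by exact_mod_cast hq1
    obtain ⟨φ, hφ⟩ : ∃ φ : (Fin 4 → ℤ) →+ ZMod q × ZMod q, ∀ x, φ x =
        (((x 2 - h * (2 * a.1 * x 0 + a.2.1 * x 1) : ℤ) : ZMod q), ((x 3 - h * (a.2.1 * x 0 + 2 * a.2.2 * x 1) : ℤ) : ZMod q)) := by
      refine ⟨AddMonoidHom.mk' (fun x => (((x 2 - h * (2 * a.1 * x 0 + a.2.1 * x 1) : ℤ) : ZMod q),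
        ((x 3 - h * (a.2.1 * x 0 + 2 * a.2.2 * x 1) : ℤ) : ZMod q))) ?_, fun x => rfl⟩
      intro x y
      refine Prod.ext ?_ ?_
      · show ((((x + y) 2 - h * (2 * a.1 * (x + y) 0 + a.2.1 * (x + y) 1) : ℤ)) : ZMod q) =
          ((x 2 - h * (2 * a.1 * x 0 + a.2.1 * x 1) : ℤ) : ZMod q) + ((y 2 - h * (2 * a.1 * y 0 + a.2.1 * y 1) : ℤ) : ZMod q)
        rw [← Int.cast_add]
        congr 1
        simp only [Pi.add_apply]
        ring
      · show ((((x + y) 3 - h * (a.2.1 * (x + y) 0 + 2 * a.2.2 * (x + y) 1) : ℤ)) : ZMod q) =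
          ((x 3 - h * (a.2.1 * x 0 + 2 * a.2.2 * x 1) : ℤ) : ZMod q) + ((y 3 - h * (a.2.1 * y 0 + 2 * a.2.2 * y 1) : ℤ) : ZMod q)
        rw [← Int.cast_add]
        congr 1
        simp only [Pi.add_apply]
        ring
    have hsur : Function.Surjective φ := by
      rintro ⟨g1, g2⟩
      obtain ⟨a', ha'⟩ := ZMod.intCast_surjective g1
      obtain ⟨c, hc'⟩ := ZMod.intCast_surjective g2
      refine ⟨![0, 0, a', c], ?_⟩
      rw [hφ]
      refine Prod.ext ?_ ?_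
      · show (((a' - h * (2 * a.1 * 0 + a.2.1 * 0) : ℤ)) : ZMod q) = g1
        rw [← ha']
        congr 1
        ring
      · show (((c - h * (a.2.1 * 0 + 2 * a.2.2 * 0) : ℤ)) : ZMod q) = g2
        rw [← hc']
        congr 1
        ring
    have hmem : ∀ v ∈ N.image fx, φ v = 0 ∧ ∀ j : Fin 4, |(v j : ℝ)| ≤ (![4 * (M : ℝ), 4 * G, q / M, q / G] : Fin 4 → ℝ) j := by
      intro v hv
      rw [mem_image] at hv
      obtain ⟨w', hw', rfl⟩ := hv
      have h1 := hP w' hw'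
      refine ⟨?_, ?_⟩
      · rw [hφ]
        refine Prod.ext ?_ ?_
        · exact (ZMod.intCast_zmod_eq_zero_iff_dvd _ _).2 (by rw [← hqz]; exact h1.d2)
        · exact (ZMod.intCast_zmod_eq_zero_iff_dvd _ _).2 (by rw [← hqz]; exact h1.d3)
      · intro j
        fin_cases j
        · exact h1.b0
        · exact h1.b1
        · have := h1.b2
          rw [hqr] at this
          exact this
        · have := h1.b3
          rw [hqr] at this
          exact this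
    have key := hGP (ZMod q × ZMod q) φ hsur (![4 * (M : ℝ), 4 * G, q / M, q / G] : Fin 4 → ℝ) w hwl
      (fun i => hmem _ (hw i)) (N.image fx) hmem
    rw [Fintype.card_prod, ZMod.card, Fin.prod_univ_four, card_image_of_injOn hfx] at key
    have key2 : (11 * (![4 * (M : ℝ), 4 * G, q / M, q / G] : Fin 4 → ℝ) 0) * (11 * (![4 * (M : ℝ), 4 * G, q / M, q / G] : Fin 4 → ℝ) 1) *
        (11 * (![4 * (M : ℝ), 4 * G, q / M, q / G] : Fin 4 → ℝ) 2) * (11 * (![4 * (M : ℝ), 4 * G, q / M, q / G] : Fin 4 → ℝ) 3) =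
        234256 * ((q : ℝ) * q) := by
      show (11 * (4 * (M : ℝ))) * (11 * (4 * G)) * (11 * (q / M)) * (11 * (q / G)) = 234256 * ((q : ℝ) * q)
      field_simp
      norm_num
    rw [key2] at key
    push_cast at key
    exact le_of_mul_le_mul_right key (by positivity)
  · right
    push Not at hLI
    obtain ⟨⟨v0, hv0, hv0G, hv0n⟩, hlam⟩ := hN4 b δ r hb hδ
    have hlam0 : 0 < lamb b δ r := by
      rw [← hv0n]
      have h5 := (hN1 b hb v0 v0).2.2.2.2.1 hv0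
      have h6 : (0 : ℝ) < 1 / b ^ 5 := by positivity
      linarith
    have hSpos : ∀ j : Fin 4, 0 < (![b ^ 5, b, 1 / b, 1 / b ^ 5] : Fin 4 → ℝ) j := by
      intro j
      fin_cases j
      · show 0 < b ^ 5
        positivity
      · exact hb0
      · show 0 < 1 / b
        positivity
      · show 0 < 1 / b ^ 5
        positivity
    have key := hGR (![b ^ 5, b, 1 / b, 1 / b ^ 5] : Fin 4 → ℝ) ρ (lamb b δ r) (N.image fy) hSpos hlam0 hρ ?_ ?_ ?_
    · rw [card_image_of_injOn hfy] at key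
      exact key
    · intro v hv
      rw [mem_image] at hv
      obtain ⟨w, hw, rfl⟩ := hv
      have h1 := hP w hw
      have hn3 : (0 : ℝ) < (n : ℝ) ^ 3 := by positivity
      have hhr : (0 : ℝ) ≤ h := Nat.cast_nonneg h
      have hA : |(fy w 0 : ℝ)| ≤ 4 * (h : ℝ) * G / (n : ℝ) ^ 3 + p * ((k : ℝ) ^ 3 / M) := by
        have a1 : (n : ℝ) ^ 3 * (fy w 0 : ℝ) = h * (fx w 1 : ℝ) + (k : ℝ) ^ 2 * (fx w 2 : ℝ) := by
          exact_mod_cast h1.y0
        have a2 : (n : ℝ) ^ 3 * |(fy w 0 : ℝ)| ≤ h * (4 * G) + (k : ℝ) ^ 2 * ((n : ℝ) ^ 3 * k * p / M) := by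
          rw [← abs_of_pos hn3, ← abs_mul, a1, abs_of_pos hn3]
          refine (abs_add_le _ _).trans (add_le_add ?_ ?_)
          · rw [abs_mul, abs_of_nonneg hhr]
            exact mul_le_mul_of_nonneg_left h1.b1 hhr
          · rw [abs_mul, abs_of_nonneg (by positivity : (0 : ℝ) ≤ (k : ℝ) ^ 2)]
            exact mul_le_mul_of_nonneg_left h1.b2 (by positivity)
        have a3 : (n : ℝ) ^ 3 * (4 * (h : ℝ) * G / (n : ℝ) ^ 3 + p * ((k : ℝ) ^ 3 / M)) =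
            h * (4 * G) + (k : ℝ) ^ 2 * ((n : ℝ) ^ 3 * k * p / M) := by
          field_simp
        rw [← a3] at a2
        exact le_of_mul_le_mul_left a2 hn3
      have hA' : |(fy w 1 : ℝ)| ≤ 4 * (h : ℝ) * M / (n : ℝ) ^ 3 + p * (2 * (n : ℝ) ^ 2 * k / M + (k : ℝ) ^ 3 / G) := by
        have a1 : (n : ℝ) ^ 3 * (fy w 1 : ℝ) = h * (fx w 0 : ℝ) + 2 * (n : ℝ) ^ 2 * (fx w 2 : ℝ) +
            (k : ℝ) ^ 2 * (fx w 3 : ℝ) := by
          exact_mod_cast h1.y1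
        have a2 : (n : ℝ) ^ 3 * |(fy w 1 : ℝ)| ≤ h * (4 * M) + 2 * (n : ℝ) ^ 2 * ((n : ℝ) ^ 3 * k * p / M) +
            (k : ℝ) ^ 2 * ((n : ℝ) ^ 3 * k * p / G) := by
          rw [← abs_of_pos hn3, ← abs_mul, a1, abs_of_pos hn3]
          refine (abs_add_le _ _).trans (add_le_add ((abs_add_le _ _).trans (add_le_add ?_ ?_)) ?_)
          · rw [abs_mul, abs_of_nonneg hhr]
            exact mul_le_mul_of_nonneg_left h1.b0 hhr
          · rw [abs_mul, abs_of_nonneg (by positivity : (0 : ℝ) ≤ 2 * (n : ℝ) ^ 2)]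
            exact mul_le_mul_of_nonneg_left h1.b2 (by positivity)
          · rw [abs_mul, abs_of_nonneg (by positivity : (0 : ℝ) ≤ (k : ℝ) ^ 2)]
            exact mul_le_mul_of_nonneg_left h1.b3 (by positivity)
        have a3 : (n : ℝ) ^ 3 * (4 * (h : ℝ) * M / (n : ℝ) ^ 3 + p * (2 * (n : ℝ) ^ 2 * k / M + (k : ℝ) ^ 3 / G)) =
            h * (4 * M) + 2 * (n : ℝ) ^ 2 * ((n : ℝ) ^ 3 * k * p / M) +
            (k : ℝ) ^ 2 * ((n : ℝ) ^ 3 * k * p / G) := by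
          field_simp
          ring
        rw [← a3] at a2
        exact le_of_mul_le_mul_left a2 hn3
      have hB : |(fy w 2 : ℝ)| ≤ 2 * (n : ℝ) / k * (4 * (h : ℝ) * M / (n : ℝ) ^ 3 + p * (2 * (n : ℝ) ^ 2 * k / M + (k : ℝ) ^ 3 / G)) +
          p * (5 * (n : ℝ) ^ 3 / M) := by
        have a1 : (k : ℝ) * (fy w 2 : ℝ) = 2 * n * (fy w 1 : ℝ) - 5 * (fx w 2 : ℝ) := by exact_mod_cast h1.y2
        have a2 : (k : ℝ) * |(fy w 2 : ℝ)| ≤ 2 * n * (4 * (h : ℝ) * M / (n : ℝ) ^ 3 + p * (2 * (n : ℝ) ^ 2 * k / M + (k : ℝ) ^ 3 / G)) +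
            5 * ((n : ℝ) ^ 3 * k * p / M) := by
          rw [← abs_of_pos hkr, ← abs_mul, a1, abs_of_pos hkr]
          refine (abs_sub _ _).trans (add_le_add ?_ ?_)
          · rw [abs_mul, abs_of_nonneg (by positivity : (0 : ℝ) ≤ 2 * (n : ℝ))]
            exact mul_le_mul_of_nonneg_left hA' (by positivity)
          · rw [abs_mul, abs_of_nonneg (by norm_num : (0 : ℝ) ≤ 5)]
            exact mul_le_mul_of_nonneg_left h1.b2 (by norm_num)
        have a3 : (k : ℝ) * (2 * (n : ℝ) / k * (4 * (h : ℝ) * M / (n : ℝ) ^ 3 + p * (2 * (n : ℝ) ^ 2 * k / M + (k : ℝ) ^ 3 / G)) +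
            p * (5 * (n : ℝ) ^ 3 / M)) =
            2 * n * (4 * (h : ℝ) * M / (n : ℝ) ^ 3 + p * (2 * (n : ℝ) ^ 2 * k / M + (k : ℝ) ^ 3 / G)) +
            5 * ((n : ℝ) ^ 3 * k * p / M) := by
          rw [mul_add]
          have c1 : (k : ℝ) * (2 * (n : ℝ) / k * (4 * (h : ℝ) * M / (n : ℝ) ^ 3 + p * (2 * (n : ℝ) ^ 2 * k / M + (k : ℝ) ^ 3 / G))) =
              (k * (2 * (n : ℝ) / k)) * (4 * (h : ℝ) * M / (n : ℝ) ^ 3 + p * (2 * (n : ℝ) ^ 2 * k / M + (k : ℝ) ^ 3 / G)) := by ring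
          have c2 : (k : ℝ) * (2 * (n : ℝ) / k) = 2 * n := by field_simp
          rw [c1, c2]
          ring
        rw [← a3] at a2
        exact le_of_mul_le_mul_left a2 hkr
      have hX : |(fy w 3 : ℝ)| ≤ p * ((n : ℝ) ^ 3 / G) := by
        have a1 : (k : ℝ) * (fy w 3 : ℝ) = (fx w 3 : ℝ) := by exact_mod_cast h1.y3
        have a2 : (k : ℝ) * |(fy w 3 : ℝ)| ≤ (n : ℝ) ^ 3 * k * p / G := by
          have c1 : (k : ℝ) * |(fy w 3 : ℝ)| = |(k : ℝ) * (fy w 3 : ℝ)| := by rw [abs_mul, abs_of_pos hkr]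
          rw [c1, a1]
          exact h1.b3
        have a3 : (k : ℝ) * (p * ((n : ℝ) ^ 3 / G)) = (n : ℝ) ^ 3 * k * p / G := by ring
        rw [← a3] at a2
        exact le_of_mul_le_mul_left a2 hkr
      intro j
      fin_cases j
      · exact hA.trans s1
      · exact hA'.trans s2
      · show |(fy w 2 : ℝ)| ≤ ρ * (1 / b)
        rw [mul_one_div]
        exact hB.trans s3
      · show |(fy w 3 : ℝ)| ≤ ρ * (1 / b ^ 5)
        rw [mul_one_div]
        exact hX.trans s4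
    · intro v hv v' hv' hne
      rw [mem_image] at hv hv'
      obtain ⟨w, hw, rfl⟩ := hv
      obtain ⟨w', hw', rfl⟩ := hv'
      have h1 := (hP w hw).inG
      have h2 := (hP w' hw').inG
      obtain ⟨-, hadd, -⟩ := hN2
      have h3 := (hadd δ r _ _ h1 (hadd δ r _ _ h2 h2).2).1
      obtain ⟨z, hz⟩ : ∃ z : V4, z = (fy w 0, fy w 1, fy w 2, fy w 3) + -(fy w' 0, fy w' 1, fy w' 2, fy w' 3) := ⟨_, rfl⟩
      have hz0 : z ≠ 0 := by
        intro h0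
        apply hne
        rw [h0] at hz
        have c1 := congrArg Prod.fst hz
        have c2 := congrArg (fun t : V4 => t.2.1) hz
        have c3 := congrArg (fun t : V4 => t.2.2.1) hz
        have c4 := congrArg (fun t : V4 => t.2.2.2) hz
        have d1 : (0 : ℤ) = fy w 0 + -fy w' 0 := c1
        have d2 : (0 : ℤ) = fy w 1 + -fy w' 1 := c2
        have d3 : (0 : ℤ) = fy w 2 + -fy w' 2 := c3
        have d4 : (0 : ℤ) = fy w 3 + -fy w' 3 := c4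
        funext j
        fin_cases j
        · show fy w 0 = fy w' 0
          linarith
        · show fy w 1 = fy w' 1
          linarith
        · show fy w 2 = fy w' 2
          linarith
        · show fy w 3 = fy w' 3
          linarith
      have h4 := hlam z hz0 (by rw [hz]; exact h3)
      have z1 : z.1 = fy w 0 - fy w' 0 := by rw [hz]; show fy w 0 + -fy w' 0 = _; ring
      have z2 : z.2.1 = fy w 1 - fy w' 1 := by rw [hz]; show fy w 1 + -fy w' 1 = _; ring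
      have z3 : z.2.2.1 = fy w 2 - fy w' 2 := by rw [hz]; show fy w 2 + -fy w' 2 = _; ring
      have z4 : z.2.2.2 = fy w 3 - fy w' 3 := by rw [hz]; show fy w 3 + -fy w' 3 = _; ring
      rw [nrm, z1, z2, z3, z4, le_max_iff, le_max_iff, le_max_iff] at h4
      rcases h4 with (h4 | h4) | (h4 | h4)
      · exact ⟨0, (le_div_iff₀ (by positivity : (0 : ℝ) < b ^ 5)).1 h4⟩
      · exact ⟨1, (le_div_iff₀ hb0).1 h4⟩
      · refine ⟨2, ?_⟩
        show lamb b δ r * (1 / b) ≤ _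
        rw [mul_one_div]
        exact (div_le_iff₀ hb0).2 h4
      · refine ⟨3, ?_⟩
        show lamb b δ r * (1 / b ^ 5) ≤ _
        rw [mul_one_div]
        exact (div_le_iff₀ (by positivity : (0 : ℝ) < b ^ 5)).2 h4
    · intro w hw hwl
      have hw' : ∀ i, ∃ t ∈ N, fy t = w i := fun i => mem_image.1 (hw i)
      choose t ht htw using hw'
      have hyl : LinearIndependent ℤ (fun i => fy (t i)) := by
        have : (fun i => fy (t i)) = w := funext htw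
        rw [this]
        exact hwl
      exact hLI (fun i => fx (t i)) (fun i => mem_image_of_mem fx (ht i))
        (RNP_li hn hk t (fun i => fx (t i)) (fun i => fy (t i)) (fun i => hP _ (ht i)) hyl)

end Pool.Agent.T7
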